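import Pool.Agent.Q328.PX.Final

/-!
# The outcome of pomax games on posets of height two is PSPACE-complete

Lower bound: a quantified Boolean formula in conjunctive normal form becomes a poset of height two.
Its maximal elements are the possible assignments and checks (one of them must be played at every
step), its minimal elements are moves for one of the players which lie below two maximal elements,
so that they become available as soon as both are deleted.  A choice which conflicts with an earlier
one, or which is played too early, gives the opponent many free moves.  Upper bound: the game on
lists is evaluated in polynomial space.
-/

set_option autoImplicit false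

namespace Pool.Agent.Results.MP_26a3fe_lc.HeightTwoPSPACEComplete

open Pool.Agent.NPC Pool.Agent.NPC.Q328.PX Pool.Agent.H623R2.PS

/-- **Determining the outcome of pomax games on coloured posets of height at most two is
`PSPACE`-complete.**  This holds for each of the problems `White wins if White moves first`,
`Black wins if Black moves first`, and `the game equals 0`. -/
theorem result :
    PSPACEComplete (lang (HeightTwoProblem fun _ P => P.WhiteFirst)) ∧
    PSPACEComplete (lang (HeightTwoProblem fun _ P => P.BlackFirst)) ∧
    PSPACEComplete (lang (HeightTwoProblem fun _ P => P.EqZero)) :=
  ⟨⟨whiteFirst_mem, whiteFirst_hard⟩, ⟨blackFirst_mem, blackFirst_hard⟩, ⟨eqZero_mem, eqZero_hard⟩⟩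

end Pool.Agent.Results.MP_26a3fe_lc.HeightTwoPSPACEComplete
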